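import Pool.Agent.J4.H68.LV.R13

set_option autoImplicit false

/-!
# The sharp constant for positive harmonic functions vanishing on a relatively dense set

For `0 < δ < N` the best constant `C(N, δ)` in `sup U_E ≤ C(N, δ)` is `(N/π) log cot (π δ / (4 N))`,
it is attained by the periodic set, and only by its translates.

Outline of the proof (`N = 1`).  Write `u` for the restriction of `U = U_E` to the real line.
* `U(x+iy) = y + P_y u(x)` for `y > 0` with the Cauchy (Poisson) kernel `P_y` (`R1`-`R4`).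
* `U(x+iy)` increases in `y > 0`: the function `U(w - ih/2) - U(w + ih/2)` is odd under
  conjugation and subharmonic in the upper half plane (`R5`).  Hence `u ≤ 1_G (t + P_t u)` with
  `G` the complement of `E`, which also gives boundedness of `u` (`R6`).
* Discretize with mesh `1/(2n+1)`.  Every window of `2n+1` consecutive cells carries mass at most
  `1 - δ` of `G`.  A rearrangement inequality for windows (circle Riesz inequality, filling and
  pushing of mass) shows that the window sums of the cell averages of `u` are dominated by those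
  of any symmetric decreasing periodic supersolution (`D1`-`D6`); the periodized Cauchy kernel is
  decreasing on half a period by its closed form (`R7`).
* The explicit extremal functions with slightly larger gaps are supersolutions (`R8`, `R9`).
* For uniqueness, the defect in the rearrangement inequality shows that
  `u(x) + u(-x) = 2 ũ(x)` near the maximum point, hence everywhere by the identity theorem, and a
  comparison argument then gives `u = ũ` (`R11`, `R12`).
-/

namespace Pool.Agent.Results.MP_cebbdc_an.SharpConstant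

open MeasureTheory Set Filter Topology

/-- Barrier criterion: `x` is a regular boundary point of `ℂ ∖ E`, that is, there are a disc about
`x` and a positive harmonic function on the part of the disc off `E` which tends to `0` at `x`. -/
def RegularAt (E : Set ℝ) (x : ℝ) : Prop :=
  ∃ r > 0, ∃ b : ℂ → ℝ,
    InnerProductSpace.HarmonicOnNhd b (Metric.ball (x : ℂ) r \ (Complex.ofReal '' E)) ∧
    (∀ z ∈ Metric.ball (x : ℂ) r \ (Complex.ofReal '' E), 0 < b z) ∧
    Tendsto b (𝓝[(Complex.ofReal '' E)ᶜ] (x : ℂ)) (𝓝 0)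

/-- The family `E(N, δ)`: closed sets meeting every interval of length `N` in a set of Lebesgue
measure at least `δ`, all of whose points are regular. -/
structure Family (N δ : ℝ) (E : Set ℝ) : Prop where
  closed : IsClosed E
  thick : ∀ a : ℝ, δ ≤ volume.real (E ∩ Icc a (a + N))
  regular : ∀ x ∈ E, RegularAt E x

/-- `U` is the function `U_E`: continuous on `ℂ`, zero on `E`, positive and harmonic off `E`,
symmetric under conjugation, and normalised by `U(iy)/y → 1` as `y → +∞`. -/
structure IsUE (E : Set ℝ) (U : ℂ → ℝ) : Prop where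
  cont : Continuous U
  zero : ∀ x ∈ E, U (x : ℂ) = 0
  pos : ∀ z ∉ Complex.ofReal '' E, 0 < U z
  harm : InnerProductSpace.HarmonicOnNhd U (Complex.ofReal '' E)ᶜ
  symm : ∀ z : ℂ, U (starRingEnd ℂ z) = U z
  norm : Tendsto (fun y : ℝ => U (y * Complex.I) / y) atTop (𝓝 1)

/-- The set of all values `U_E(x)` with `E` in the family `E(N, δ)` and `x` real; its supremum is
`C(N, δ)`. -/
def vals (N δ : ℝ) : Set ℝ := {c | ∃ E U, Family N δ E ∧ IsUE E U ∧ ∃ x : ℝ, U (x : ℂ) = c}

/-- The periodic set, the union of the intervals `[nN - δ/2, nN + δ/2]`. -/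
def Etil (N δ : ℝ) : Set ℝ := ⋃ n : ℤ, Icc (n * N - δ / 2) (n * N + δ / 2)

/-- The number `(N/π) log cot (π δ / (4 N))`. -/
noncomputable def cst (N δ : ℝ) : ℝ := N / Real.pi * Real.log (Real.cot (Real.pi * δ / (4 * N)))

open Pool.Agent.J4.H68.LV

lemma not_image_iff {E : Set ℝ} {z : ℂ} :
    z ∉ Complex.ofReal '' E ↔ ∀ x ∈ E, z ≠ (x : ℂ) := by
  constructor
  · intro h x hx hzx
    exact h ⟨x, hx, hzx.symm⟩
  · rintro h ⟨x, hx, hzx⟩
    exact h x hx hzx.symm

lemma toLev {E : Set ℝ} {U : ℂ → ℝ} (h : IsUE E U) : Lev E U :=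
  ⟨h.cont, h.zero, fun z hz => h.pos z (not_image_iff.2 hz),
    fun z hz => h.harm z (not_image_iff.2 hz), h.symm, h.norm⟩

lemma ofLev {E : Set ℝ} {U : ℂ → ℝ} (h : Lev E U) : IsUE E U :=
  ⟨h.cont, h.zero, fun z hz => h.pos z (not_image_iff.1 hz),
    fun z hz => h.harm z (not_image_iff.1 hz), h.symm, h.norm⟩

lemma regular_of {E : Set ℝ} {U : ℂ → ℝ} (h : IsUE E U) (x : ℝ) (hx : x ∈ E) :
    RegularAt E x := by
  refine ⟨1, one_pos, U, fun z hz => h.harm z hz.2, fun z hz => h.pos z hz.2, ?_⟩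
  have := h.cont.tendsto (x : ℂ)
  rw [h.zero x hx] at this
  exact this.mono_left nhdsWithin_le_nhds

lemma cst_eq {N δ : ℝ} (hδ : 0 < δ) (hN : δ < N) :
    cst N δ = N * ue ((1 - δ / N) / 2) 0 := by
  have hN0 : 0 < N := hδ.trans hN
  rw [ue_value (by positivity) ((div_lt_one hN0).2 hN), cst]
  have : Real.pi * (δ / N) / 4 = Real.pi * δ / (4 * N) := by field_simp
  rw [this]
  ring

lemma mem_Etil {N δ : ℝ} (hδ : 0 < δ) (hN : δ < N) (x : ℝ) :
    x ∈ Etil N δ ↔ N⁻¹ * x + 1 / 2 ∈ EE ((1 - δ / N) / 2) := by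
  have hN0 : 0 < N := hδ.trans hN
  rw [EE_iff (by positivity) ((div_lt_one hN0).2 hN), Etil, mem_iUnion]
  refine exists_congr fun n => ?_
  have e1 : N⁻¹ * x + 1 / 2 - 1 / 2 = x / N := by field_simp; ring
  rw [e1, mem_Icc, mem_Icc, div_le_iff₀ hN0, le_div_iff₀ hN0]
  have e2 : ((n : ℝ) - δ / N / 2) * N = n * N - δ / 2 := by field_simp
  have e3 : ((n : ℝ) + δ / N / 2) * N = n * N + δ / 2 := by field_simp
  rw [e2, e3]

/-- the periodic set and its function -/
lemma etil_main {N δ : ℝ} (hδ : 0 < δ) (hN : δ < N) :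
    Family N δ (Etil N δ) ∧ ∃ U, IsUE (Etil N δ) U ∧ U ((N / 2 : ℝ) : ℂ) = cst N δ := by
  have hN0 : 0 < N := hδ.trans hN
  set δ' := δ / N with hδ'
  have h0 : 0 < δ' := by positivity
  have h1 : δ' < 1 := (div_lt_one hN0).2 hN
  set a := (1 - δ') / 2 with ha
  have ha0 : 0 < a := by rw [ha]; linarith
  have ha1 : a < 1 / 2 := by rw [ha]; linarith
  have hset : Etil N δ = {x : ℝ | N⁻¹ * x + 1 / 2 ∈ EE a} := by
    ext x
    exact mem_Etil hδ hN x
  have hL := (lev_UE ha0 ha1).affine (k := N⁻¹) (by positivity) (1 / 2)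
  rw [← hset] at hL
  have hU := ofLev hL
  refine ⟨⟨?_, ?_, regular_of hU⟩, _, hU, ?_⟩
  · rw [hset]
    exact (closed_EE a).preimage (by fun_prop)
  · intro b
    have h2 := thick_EE ha0 ha1
    have h3 := thick_affine (N := 1) one_pos h2 (k := N⁻¹) (by positivity) (1 / 2) b
    rw [← hset] at h3
    have e1 : (1 - 2 * a) / N⁻¹ = δ := by
      rw [ha, hδ']; field_simp; ring
    have e2 : (1 : ℝ) / N⁻¹ = N := by field_simp
    rw [e1, e2] at h3
    exact h3
  · rw [cst_eq hδ hN]
    have e1 : ((N⁻¹ : ℝ) : ℂ) * ((N / 2 : ℝ) : ℂ) + ((1 / 2 : ℝ) : ℂ) = ((1 : ℝ) : ℂ) := by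
      rw [← Complex.ofReal_mul, ← Complex.ofReal_add]
      congr 1
      field_simp
      norm_num
    have e2 : ue a 1 = ue a 0 := by
      have := ue_add_one a 0
      rwa [zero_add] at this
    show UE a (((N⁻¹ : ℝ) : ℂ) * ((N / 2 : ℝ) : ℂ) + ((1 / 2 : ℝ) : ℂ)) / N⁻¹ = N * ue a 0
    rw [e1, ← e2, ue]
    field_simp

lemma main_le {N δ : ℝ} (hδ : 0 < δ) (hN : δ < N) {E : Set ℝ} {U : ℂ → ℝ} (hE : Family N δ E)
    (hU : IsUE E U) (x₀ : ℝ) :
    U (x₀ : ℂ) ≤ cst N δ ∧ (U (x₀ : ℂ) = cst N δ →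
      E = (fun x => x + (x₀ - N / 2)) '' Etil N δ) := by
  have hN0 : 0 < N := hδ.trans hN
  set δ' := δ / N with hδ'
  have h0 : 0 < δ' := by positivity
  have h1 : δ' < 1 := (div_lt_one hN0).2 hN
  have hL := (toLev hU).affine hN0 x₀
  have hcl : IsClosed {x : ℝ | N * x + x₀ ∈ E} := hE.closed.preimage (by fun_prop)
  have hth : Thick {x : ℝ | N * x + x₀ ∈ E} δ' := by
    intro b
    have h3 := thick_affine hN0 hE.thick hN0 x₀ b
    rw [div_self hN0.ne'] at h3
    exact h3
  have e0 : U ((N : ℂ) * ((0 : ℝ) : ℂ) + x₀) = U x₀ := by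
    congr 1
    simp
  constructor
  · have h2 := hL.sharp hcl h0 h1 hth 0
    rw [e0, div_le_iff₀ hN0, mul_comm] at h2
    rw [cst_eq hδ hN]
    exact h2
  · intro hmax
    have h2 := (uniq_zero hL hcl h0 h1 hth (by
      rw [e0, hmax, cst_eq hδ hN, ← hδ', mul_div_cancel_left₀ _ hN0.ne'])).2
    ext y
    constructor
    · intro hy
      refine ⟨y - (x₀ - N / 2), ?_, by ring⟩
      rw [mem_Etil hδ hN]
      have h3 : N⁻¹ * (y - (x₀ - N / 2)) + 1 / 2 = N⁻¹ * (y - x₀) + ((1 : ℤ) : ℝ) := by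
        push_cast
        field_simp
        ring
      rw [h3, EE_add_int, ← h2]
      show N * (N⁻¹ * (y - x₀)) + x₀ ∈ E
      have h4 : N * (N⁻¹ * (y - x₀)) + x₀ = y := by field_simp; ring
      rw [h4]
      exact hy
    · rintro ⟨w, hw, rfl⟩
      rw [mem_Etil hδ hN] at hw
      have h3 : N⁻¹ * w + 1 / 2 = N⁻¹ * (w + (x₀ - N / 2) - x₀) + ((1 : ℤ) : ℝ) := by
        push_cast
        field_simp
        ring
      rw [h3, EE_add_int, ← h2] at hw
      have hw' : N * (N⁻¹ * (w + (x₀ - N / 2) - x₀)) + x₀ ∈ E := hw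
      have h4 : N * (N⁻¹ * (w + (x₀ - N / 2) - x₀)) + x₀ = w + (x₀ - N / 2) := by
        field_simp; ring
      rw [h4] at hw'
      exact hw'

/-- **The sharp constant and the extremal sets.**  For `0 < δ < N`:
* `C(N, δ) = (N/π) log cot (π δ / (4 N))`, and the supremum defining `C(N, δ)` is attained;
* the periodic set belongs to the family and attains it (at the midpoint of a gap);
* every set of the family attaining this value at a real point is a translate of the periodic
  set. -/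
theorem result (N δ : ℝ) (hδ : 0 < δ) (hN : δ < N) :
    IsGreatest (vals N δ) (cst N δ) ∧
    (Family N δ (Etil N δ) ∧ ∃ U, IsUE (Etil N δ) U ∧ U ((N / 2 : ℝ) : ℂ) = cst N δ) ∧
    (∀ E U, Family N δ E → IsUE E U → (∃ x : ℝ, U (x : ℂ) = cst N δ) →
      ∃ c : ℝ, E = (fun x => x + c) '' Etil N δ) := by
  have h1 := etil_main hδ hN
  refine ⟨⟨?_, ?_⟩, h1, ?_⟩
  · obtain ⟨hF, U, hU, hv⟩ := h1
    exact ⟨_, U, hF, hU, _, hv⟩
  · rintro c ⟨E, U, hE, hU, x, rfl⟩
    exact (main_le hδ hN hE hU x).1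
  · rintro E U hE hU ⟨x, hx⟩
    exact ⟨_, (main_le hδ hN hE hU x).2 hx⟩

end Pool.Agent.Results.MP_cebbdc_an.SharpConstant
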